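import Pool.Agent.N522.G1.Defs

/-!
# MP_4132b3_nt: Q1 for a genus one curve is the one-dimensionality of `H^2_M(C, ℚ(3))`
-/

open Pool.Agent.N522.G1

/-- For every genus one curve `C` over `ℚ`, Q1 for `C` holds if and only if `H^2_M(C, ℚ(3))` has
dimension one over `ℚ`; and Q1 for `C` depends only on the isogeny class of the Jacobian. -/
theorem Pool.Agent.Results.MP_4132b3_nt.OneDimensionality.result :
    ∀ T : Theory, Facts T →
      (∀ C : T.Cur, Q1 C ↔ OneDim C) ∧
      (∀ C D : T.Cur, T.jac C = T.jac D → (Q1 C ↔ Q1 D)) :=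
  fun _ F => ⟨q1_iff F, fun C D h => q1_isogeny F C D h⟩
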